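import Pool.Agent.Y386.IR.Stm2
import Pool.Agent.NPC.Hard
import Pool.Agent.NPC.Dec
import Pool.Agent.H642R2.TMSim

/-!
IR-ORAC: a polynomial-time decision procedure as a `Poly` function on graphs.
-/

set_option autoImplicit false

namespace Pool.Agent.Y528.IR

open Pool.Agent Pool.Agent.NPC Pool.Agent.H692R2 Pool.Agent.Y386.IR

theorem t_ORAC : S_ORAC := by
  rintro Q ⟨f, hf, hQ⟩
  have h0 : PC (bits : FinGraph → List Bool) (fun x : List Bool => x) (fun G => bits G) := by
    obtain ⟨c, p, h⟩ := (PC.id : PC (bits : FinGraph → List Bool) bits (fun G => G))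
    exact ⟨c, p, h⟩
  have h1 : PC (fun x : List Bool => x) (fun x : List Bool => x) f :=
    H642R2.TMSim.polyTime_toPC hf
  have h2 : PC (fun x : List Bool => x) (bits : List Bool → List Bool) f :=
    PC.comp (g := fun x => x) (f := f) PC.rawIn h1
  have h3 : NPC.Poly (fun G : FinGraph => f (bits G)) :=
    PC.comp (g := f) (f := fun G => bits G) h2 h0
  refine ⟨fun G => decide (f (bits G) = [true]),
    NPC.Poly.decide_eq h3 (NPC.Poly.const [true]), fun G => ?_⟩
  rw [hQ G, decide_eq_true_iff]

end Pool.Agent.Y528.IR
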